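import Pool.Agent.W763.PB.Stm

/-! Project PB (MP_c88e0f_an), part F2a: the Banach limit form. -/

set_option autoImplicit false
open MeasureTheory Filter Topology
open scoped InnerProductSpace BoundedContinuousFunction ComplexConjugate

namespace Pool.Agent.W315.PB

open Pool.Agent.W763.PB

noncomputable section

/-- real parts -/
def reM (g : ℕ →ᵇ ℂ) : ℕ →ᵇ ℝ :=
  BoundedContinuousFunction.ofNormedAddCommGroupDiscrete (fun n => (g n).re) ‖g‖ (fun n => by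
    rw [Real.norm_eq_abs]
    exact (Complex.abs_re_le_norm _).trans (g.norm_coe_le_norm n))

/-- imaginary parts -/
def imM (g : ℕ →ᵇ ℂ) : ℕ →ᵇ ℝ :=
  BoundedContinuousFunction.ofNormedAddCommGroupDiscrete (fun n => (g n).im) ‖g‖ (fun n => by
    rw [Real.norm_eq_abs]
    exact (Complex.abs_im_le_norm _).trans (g.norm_coe_le_norm n))

theorem reM_apply (g : ℕ →ᵇ ℂ) (n : ℕ) : reM g n = (g n).re := rfl

theorem imM_apply (g : ℕ →ᵇ ℂ) (n : ℕ) : imM g n = (g n).im := rfl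

theorem reM_norm (g : ℕ →ᵇ ℂ) : ‖reM g‖ ≤ ‖g‖ := by
  rw [BoundedContinuousFunction.norm_le (norm_nonneg _)]
  intro n
  rw [reM_apply, Real.norm_eq_abs]
  exact (Complex.abs_re_le_norm _).trans (g.norm_coe_le_norm n)

theorem imM_norm (g : ℕ →ᵇ ℂ) : ‖imM g‖ ≤ ‖g‖ := by
  rw [BoundedContinuousFunction.norm_le (norm_nonneg _)]
  intro n
  rw [imM_apply, Real.norm_eq_abs]
  exact (Complex.abs_im_le_norm _).trans (g.norm_coe_le_norm n)

variable (L : (ℕ →ᵇ ℝ) →L[ℝ] ℝ)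

/-- the complex Banach limit -/
def Lam (g : ℕ →ᵇ ℂ) : ℂ := (L (reM g) : ℂ) + (L (imM g) : ℂ) * Complex.I

theorem Lam_add (g h : ℕ →ᵇ ℂ) : Lam L (g + h) = Lam L g + Lam L h := by
  have h1 : reM (g + h) = reM g + reM h := by
    ext n
    simp [reM_apply]
  have h2 : imM (g + h) = imM g + imM h := by
    ext n
    simp [imM_apply]
  unfold Lam
  rw [h1, h2, map_add, map_add]
  push_cast
  ring

theorem Lam_smul (c : ℂ) (g : ℕ →ᵇ ℂ) : Lam L (c • g) = c * Lam L g := by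
  have h1 : reM (c • g) = c.re • reM g - c.im • imM g := by
    ext n
    simp [reM_apply, imM_apply, Complex.mul_re]
  have h2 : imM (c • g) = c.re • imM g + c.im • reM g := by
    ext n
    simp [reM_apply, imM_apply, Complex.mul_im]
  unfold Lam
  rw [h1, h2, map_add, map_sub, map_smul, map_smul, map_smul, map_smul]
  apply Complex.ext
  · simp
  · simp

theorem Lam_norm (g : ℕ →ᵇ ℂ) : ‖Lam L g‖ ≤ 2 * ‖L‖ * ‖g‖ := by
  unfold Lam
  refine (norm_add_le _ _).trans ?_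
  rw [norm_mul, Complex.norm_I, mul_one, Complex.norm_real, Complex.norm_real]
  have h1 := L.le_opNorm (reM g)
  have h2 := L.le_opNorm (imM g)
  have h0 : 0 ≤ ‖L‖ := by positivity
  have h3 : ‖L‖ * ‖reM g‖ ≤ ‖L‖ * ‖g‖ := mul_le_mul_of_nonneg_left (reM_norm g) h0
  have h4 : ‖L‖ * ‖imM g‖ ≤ ‖L‖ * ‖g‖ := mul_le_mul_of_nonneg_left (imM_norm g) h0
  linarith

section form

variable {H : Type} [NormedAddCommGroup H] [InnerProductSpace ℂ H] [CompleteSpace H]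
  (U : H ≃ₗᵢ[ℂ] H) (D : H ≃L[ℂ] H)

theorem bd (hU : ∀ (n : ℕ) x, ‖D ((U ^ n) x)‖ ≤ 5 * ‖D x‖) (x y : H) (n : ℕ) :
    ‖⟪D ((U ^ n) x), D ((U ^ n) y)⟫_ℂ‖ ≤ 25 * ‖D x‖ * ‖D y‖ := by
  refine (norm_inner_le_norm _ _).trans ?_
  have h1 := hU n x
  have h2 := hU n y
  calc ‖D ((U ^ n) x)‖ * ‖D ((U ^ n) y)‖ ≤ (5 * ‖D x‖) * (5 * ‖D y‖) :=
        mul_le_mul h1 h2 (norm_nonneg _) (by positivity)
    _ = 25 * ‖D x‖ * ‖D y‖ := by ring

/-- the sequence -/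
def sq (hU : ∀ (n : ℕ) x, ‖D ((U ^ n) x)‖ ≤ 5 * ‖D x‖) (x y : H) : ℕ →ᵇ ℂ :=
  BoundedContinuousFunction.ofNormedAddCommGroupDiscrete
    (fun n => ⟪D ((U ^ n) x), D ((U ^ n) y)⟫_ℂ) (25 * ‖D x‖ * ‖D y‖) (bd U D hU x y)

theorem sq_apply (hU : ∀ (n : ℕ) x, ‖D ((U ^ n) x)‖ ≤ 5 * ‖D x‖) (x y : H) (n : ℕ) :
    sq U D hU x y n = ⟪D ((U ^ n) x), D ((U ^ n) y)⟫_ℂ := rfl

theorem sq_norm (hU : ∀ (n : ℕ) x, ‖D ((U ^ n) x)‖ ≤ 5 * ‖D x‖) (x y : H) :
    ‖sq U D hU x y‖ ≤ 25 * ‖D x‖ * ‖D y‖ := by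
  rw [BoundedContinuousFunction.norm_le (by positivity)]
  exact bd U D hU x y

/-- the sesquilinear form -/
def frm (hU : ∀ (n : ℕ) x, ‖D ((U ^ n) x)‖ ≤ 5 * ‖D x‖) : H →ₗ⋆[ℂ] H →ₗ[ℂ] ℂ :=
  LinearMap.mk₂'ₛₗ (starRingEnd ℂ) (RingHom.id ℂ) (fun x y => Lam L (sq U D hU x y))
    (by
      intro x₁ x₂ y
      rw [← Lam_add]
      congr 1
      ext n
      simp only [sq_apply, BoundedContinuousFunction.coe_add, Pi.add_apply, map_add,
        inner_add_left])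
    (by
      intro c x y
      rw [smul_eq_mul, ← Lam_smul]
      congr 1
      ext n
      simp only [sq_apply, BoundedContinuousFunction.coe_smul, map_smul, inner_smul_left,
        smul_eq_mul])
    (by
      intro x y₁ y₂
      rw [← Lam_add]
      congr 1
      ext n
      simp only [sq_apply, BoundedContinuousFunction.coe_add, Pi.add_apply, map_add,
        inner_add_right])
    (by
      intro c x y
      rw [smul_eq_mul, ← Lam_smul]
      congr 1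
      ext n
      simp only [sq_apply, BoundedContinuousFunction.coe_smul, map_smul, inner_smul_right,
        smul_eq_mul, RingHom.id_apply])

theorem frm_apply (hU : ∀ (n : ℕ) x, ‖D ((U ^ n) x)‖ ≤ 5 * ‖D x‖) (x y : H) :
    frm L U D hU x y = Lam L (sq U D hU x y) := rfl

theorem frm_norm (hU : ∀ (n : ℕ) x, ‖D ((U ^ n) x)‖ ≤ 5 * ‖D x‖) (x y : H) :
    ‖frm L U D hU x y‖ ≤ (50 * ‖L‖ * ‖(D : H →L[ℂ] H)‖ ^ 2) * ‖x‖ * ‖y‖ := by
  rw [frm_apply]
  refine (Lam_norm L _).trans ?_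
  have h1 := sq_norm U D hU x y
  have h2 : ‖D x‖ ≤ ‖(D : H →L[ℂ] H)‖ * ‖x‖ := (D : H →L[ℂ] H).le_opNorm x
  have h3 : ‖D y‖ ≤ ‖(D : H →L[ℂ] H)‖ * ‖y‖ := (D : H →L[ℂ] H).le_opNorm y
  calc 2 * ‖L‖ * ‖sq U D hU x y‖ ≤ 2 * ‖L‖ * (25 * ‖D x‖ * ‖D y‖) :=
        mul_le_mul_of_nonneg_left h1 (by positivity)
    _ = 50 * ‖L‖ * (‖D x‖ * ‖D y‖) := by ring
    _ ≤ 50 * ‖L‖ * ((‖(D : H →L[ℂ] H)‖ * ‖x‖) * (‖(D : H →L[ℂ] H)‖ * ‖y‖)) := by
        apply mul_le_mul_of_nonneg_left _ (by positivity)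
        exact mul_le_mul h2 h3 (norm_nonneg _) (by positivity)
    _ = _ := by ring

/-- the operator -/
def Bop (hU : ∀ (n : ℕ) x, ‖D ((U ^ n) x)‖ ≤ 5 * ‖D x‖) : H →L[ℂ] H :=
  InnerProductSpace.continuousLinearMapOfBilin
    ((frm L U D hU).mkContinuous₂ (50 * ‖L‖ * ‖(D : H →L[ℂ] H)‖ ^ 2) (frm_norm L U D hU))

theorem Bop_inner (hU : ∀ (n : ℕ) x, ‖D ((U ^ n) x)‖ ≤ 5 * ‖D x‖) (x y : H) :
    ⟪Bop L U D hU x, y⟫_ℂ = Lam L (sq U D hU x y) := by
  unfold Bop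
  rw [InnerProductSpace.continuousLinearMapOfBilin_apply, LinearMap.mkContinuous₂_apply, frm_apply]

theorem diag (hU : ∀ (n : ℕ) x, ‖D ((U ^ n) x)‖ ≤ 5 * ‖D x‖) (x : H) :
    ⟪Bop L U D hU x, x⟫_ℂ = ((L (reM (sq U D hU x x)) : ℝ) : ℂ) := by
  rw [Bop_inner]
  unfold Lam
  have h1 : imM (sq U D hU x x) = 0 := by
    ext n
    rw [imM_apply, sq_apply]
    exact inner_self_im (𝕜 := ℂ) _
  rw [h1, map_zero]
  simp

theorem re_diag (hU : ∀ (n : ℕ) x, ‖D ((U ^ n) x)‖ ≤ 5 * ‖D x‖) (x : H) (n : ℕ) :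
    reM (sq U D hU x x) n = ‖D ((U ^ n) x)‖ ^ 2 := by
  rw [reM_apply, sq_apply]
  exact inner_self_eq_norm_sq (𝕜 := ℂ) _

end form

/-- **F2a** -/
theorem f2a : S_F2a := by
  intro L hL H _ _ _ U D hD hU
  have hge : ∀ x, ‖x‖ ^ 2 ≤ L (reM (sq U D hU x x)) := by
    intro x
    have h1 : 0 ≤ L (reM (sq U D hU x x) -
        (‖x‖ ^ 2) • BoundedContinuousFunction.const ℕ (1 : ℝ)) := by
      apply hL.pos
      intro n
      have h2 : ‖x‖ ≤ ‖D ((U ^ n) x)‖ := by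
        have h3 := hD ((U ^ n) x)
        rwa [LinearIsometryEquiv.norm_map] at h3
      have h4 : ‖x‖ ^ 2 ≤ ‖D ((U ^ n) x)‖ ^ 2 := pow_le_pow_left₀ (norm_nonneg _) h2 2
      rw [← re_diag U D hU x n] at h4
      simp only [BoundedContinuousFunction.coe_sub, Pi.sub_apply,
        BoundedContinuousFunction.coe_smul, BoundedContinuousFunction.const_apply, smul_eq_mul,
        mul_one]
      linarith
    rw [map_sub, map_smul, hL.one, smul_eq_mul, mul_one] at h1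
    linarith
  refine ⟨Bop L U D hU, ?_, ?_, ?_, ?_⟩
  · rw [ContinuousLinearMap.isPositive_iff_complex]
    intro x
    rw [diag L U D hU x]
    refine ⟨by simp, ?_⟩
    have := hge x
    simp only [RCLike.re_to_complex, Complex.ofReal_re]
    have h0 : 0 ≤ ‖x‖ ^ 2 := by positivity
    linarith
  · intro x
    rw [diag L U D hU x, Complex.ofReal_re]
    exact hge x
  · intro x
    apply ext_inner_right ℂ
    intro y
    obtain ⟨z, rfl⟩ := U.surjective y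
    rw [LinearIsometryEquiv.inner_map_map, Bop_inner, Bop_inner]
    unfold Lam
    have h1 : ∀ n, sq U D hU (U x) (U z) n = sq U D hU x z (n + 1) := by
      intro n
      rw [sq_apply, sq_apply, pow_succ]
      rfl
    rw [hL.sh (reM (sq U D hU x z)) (reM (sq U D hU (U x) (U z)))
        (fun n => by rw [reM_apply, reM_apply, h1]),
      hL.sh (imM (sq U D hU x z)) (imM (sq U D hU (U x) (U z)))
        (fun n => by rw [imM_apply, imM_apply, h1])]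
  · intro x f hf
    rw [diag L U D hU x, Complex.ofReal_re]
    congr 1
    ext n
    rw [hf n, re_diag]

end

end Pool.Agent.W315.PB
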